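import Pool.Agent.W477.CL.Fin

/-!
# An oligomorphic clone that is not reconstructible, without choice

In every model of Zermelo set theory (so in every model of ZF) there is an oligomorphic closed
function clone on a countably infinite set that is not reconstructible: it has an isomorphism
onto a closed function clone on a countable set that is not a homeomorphism.
-/

namespace Pool.Agent.Results.MP_a98434_lc.NotReconstructible

open FirstOrder FirstOrder.Language
open Pool.Agent.Helper672.Plain (LSet Mem Zermelo)
open Pool.Agent.W477.CL (IsClone IsClosed IsOligomorphic IsReconstructible IsCountablyInfinite)

universe u

theorem result (M : Type u) [LSet.Structure M] [Zermelo M] :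
    ∃ a c : M, IsCountablyInfinite a ∧ IsClone c a ∧ IsClosed c a ∧ IsOligomorphic c a ∧
      ¬ IsReconstructible c a :=
  Pool.Agent.W477.CL.main

end Pool.Agent.Results.MP_a98434_lc.NotReconstructible
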